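import Pool.Agent.Helper35.CL.StA

/-!
Project CL (MP_b2fa09_gt): module LD (local density).
-/

set_option autoImplicit false

namespace Pool.Agent.Helper60.CL

open Pool.Agent.Helper35.CL Helper32.CL Helper35.PI Helper35.PI2
open scoped ContDiff Manifold Topology ENNReal BigOperators
open MeasureTheory Set Filter

theorem slice_cont {M : Type} [TopologicalSpace M] {V : Type} [TopologicalSpace V] {g : M → ℝ → V}
    (h : CST g) {t : ℝ} (ht : t < 0) : Continuous (fun q => g q t) := by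
  have h1 : Continuous (fun q : M => (q, t)) := by fun_prop
  exact ContinuousOn.comp_continuous h h1 (fun q => ⟨mem_univ _, ht⟩)

theorem hLD (hLA : StLA) (hFV : StFV) (hMU : StMU) (hCN : StCN) (hSB : Helper32.CL.StSB) : StLD := by
  intro N M _ _ _ _ _ _ _ F c χ hS t ht q₀ r hr
  obtain ⟨s, -, hs⟩ := hMU 2 N M F c χ hS
  obtain ⟨hfin, -, hint⟩ := hs t ht
  obtain ⟨hF, hH, -, -⟩ := hCN N M F hS.mcf
  have hFc : Continuous (fun q => F q t) := slice_cont hF ht
  have hHc : Continuous (fun q => HH (n := 2) F q t) := slice_cont hH ht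
  obtain ⟨μ, hμ⟩ : ∃ μ, μ = muM 2 F c χ t := ⟨_, rfl⟩
  rw [← hμ] at hfin hint ⊢
  have : IsFiniteMeasure μ := ⟨hfin⟩
  obtain ⟨y, hy⟩ : ∃ y, y = F q₀ t := ⟨_, rfl⟩
  rw [← hy]
  have hblo : IsOpen (bl F t y r) := by
    have h1 : Continuous (fun q => ‖F q t - y‖) := (hFc.sub continuous_const).norm
    exact isOpen_lt h1 continuous_const
  have hblm : MeasurableSet (bl F t y r) := hblo.measurableSet
  have hH2 : Continuous (fun q => ‖HH (n := 2) F q t‖ ^ 2) := hHc.norm.pow 2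
  -- the upper bound
  have key : ∀ ε : ℝ, 0 < ε →
      ∫ q, ct F y r t q * (2 * ε ^ 2 / (‖F q t - y‖ ^ 2 + ε ^ 2) ^ 2) ∂μ ≤
        4 / r ^ 2 * μ.real (bl F t y r)
          + 1 / 8 * ∫ q in bl F t y r, ‖HH (n := 2) F q t‖ ^ 2 ∂μ := by
    intro ε hε
    obtain ⟨hfx, hct, hctp, hineq⟩ := hLA N M F hS.mcf t r ε y ht hr hε
    obtain ⟨hd, hz⟩ := hFV 2 N M F c χ hS t ht (fx F y r ε t) hfx
    rw [← hμ] at hz
    have c1 : Continuous (fun q => ct F y r t q * (2 * ε ^ 2 / (‖F q t - y‖ ^ 2 + ε ^ 2) ^ 2)) := by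
      refine hct.mul (Continuous.div continuous_const ?_ ?_)
      · exact (((hFc.sub continuous_const).norm.pow 2).add continuous_const).pow 2
      · intro q
        positivity
    have c2 : Continuous (fun q => dvg (n := 2) F (fx F y r ε t) q t +
        inner ℝ (HH (n := 2) F q t) (fx F y r ε t q)) := hd.add (hHc.inner hfx.continuous)
    have c3 : Continuous (fun q => 1 / 8 * (ct F y r t q * ‖HH (n := 2) F q t‖ ^ 2)) :=
      continuous_const.mul (hct.mul hH2)
    have i1 := (hint _ c1).1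
    have i2 := (hint _ c2).1
    have i3 := (hint _ c3).1
    have i4 : Integrable (indicator (bl F t y r) (1 : M → ℝ)) μ :=
      (integrable_const (1 : ℝ)).indicator hblm
    have i4' : Integrable (fun q => 4 / r ^ 2 * indicator (bl F t y r) (1 : M → ℝ) q) μ :=
      i4.const_mul _
    have h1 : ∫ q, ct F y r t q * (2 * ε ^ 2 / (‖F q t - y‖ ^ 2 + ε ^ 2) ^ 2) ∂μ ≤
        ∫ q, (((dvg (n := 2) F (fx F y r ε t) q t + inner ℝ (HH (n := 2) F q t) (fx F y r ε t q))
          + 1 / 8 * (ct F y r t q * ‖HH (n := 2) F q t‖ ^ 2))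
          + 4 / r ^ 2 * indicator (bl F t y r) (1 : M → ℝ) q) ∂μ := by
      refine integral_mono i1 ((i2.add i3).add i4') fun q => ?_
      exact hineq q
    have i23 : Integrable (fun q => (dvg (n := 2) F (fx F y r ε t) q t +
        inner ℝ (HH (n := 2) F q t) (fx F y r ε t q)) +
          1 / 8 * (ct F y r t q * ‖HH (n := 2) F q t‖ ^ 2)) μ := i2.add i3
    rw [integral_add i23 i4', integral_add i2 i3, hz, integral_const_mul,
      integral_const_mul, integral_indicator_one hblm, zero_add] at h1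
    have h2 : ∫ q, ct F y r t q * ‖HH (n := 2) F q t‖ ^ 2 ∂μ ≤
        ∫ q in bl F t y r, ‖HH (n := 2) F q t‖ ^ 2 ∂μ := by
      rw [← integral_indicator hblm]
      refine integral_mono (hint _ (hct.mul hH2)).1 ((hint _ hH2).1.indicator hblm) fun q => ?_
      simp only
      by_cases hq : q ∈ bl F t y r
      · rw [indicator_of_mem hq]
        have h3 := (hctp q).2.1
        have h4 : 0 ≤ ‖HH (n := 2) F q t‖ ^ 2 := by positivity
        nlinarith
      · rw [indicator_of_notMem hq, (hctp q).2.2 hq, zero_mul]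
    linarith
  -- the lower bound
  have hsb := hSB N M F c χ hS t ht q₀ univ univ_mem
  have hev : ∀ᶠ ε in 𝓝[>] (0 : ℝ), (1 - ε ^ 2 / r ^ 2) ^ 2 / 2 ≤
      4 / r ^ 2 * μ.real (bl F t y r)
          + 1 / 8 * ∫ q in bl F t y r, ‖HH (n := 2) F q t‖ ^ 2 ∂μ := by
    have hlt : ∀ᶠ ε in 𝓝[>] (0 : ℝ), ε < r := by
      have := Iio_mem_nhds hr
      exact mem_nhdsWithin_of_mem_nhds this
    filter_upwards [hsb, hlt, self_mem_nhdsWithin] with ε he1 he2 he3
    have hε : 0 < ε := he3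
    refine le_trans ?_ (key ε hε)
    rw [← hμ, univ_inter, ← hy] at he1
    obtain ⟨A, hA⟩ : ∃ A, A = {p | ‖F p t - y‖ ≤ ε} := ⟨_, rfl⟩
    rw [← hA] at he1
    have hAm : MeasurableSet A := by
      rw [hA]
      have h1 : Continuous (fun q => ‖F q t - y‖) := (hFc.sub continuous_const).norm
      exact (isClosed_le h1 continuous_const).measurableSet
    obtain ⟨-, hct, hctp, -⟩ := hLA N M F hS.mcf t r ε y ht hr hε
    have c1 : Continuous (fun q => ct F y r t q * (2 * ε ^ 2 / (‖F q t - y‖ ^ 2 + ε ^ 2) ^ 2)) := by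
      refine hct.mul (Continuous.div continuous_const ?_ ?_)
      · exact (((hFc.sub continuous_const).norm.pow 2).add continuous_const).pow 2
      · intro q
        positivity
    have hAr : ε ^ 2 ≤ μ.real A := by
      have h1 := ENNReal.toReal_mono (measure_ne_top μ A) he1
      rwa [ENNReal.toReal_ofReal (by positivity)] at h1
    have h1 : ∫ q in A, ((1 - ε ^ 2 / r ^ 2) ^ 2 * (1 / (2 * ε ^ 2))) ∂μ ≤
        ∫ q in A, ct F y r t q * (2 * ε ^ 2 / (‖F q t - y‖ ^ 2 + ε ^ 2) ^ 2) ∂μ := by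
      refine setIntegral_mono_on (integrable_const _) (hint _ c1).1.integrableOn hAm fun q hq => ?_
      rw [hA] at hq
      have hq' : ‖F q t - y‖ ≤ ε := hq
      have hsq : ‖F q t - y‖ ^ 2 ≤ ε ^ 2 := pow_le_pow_left₀ (norm_nonneg _) hq' 2
      have hr2 : 0 < r ^ 2 := by positivity
      have h0 : 0 ≤ 1 - ε ^ 2 / r ^ 2 := by
        rw [sub_nonneg, div_le_one hr2]
        exact pow_le_pow_left₀ hε.le he2.le 2
      have h2 : 1 - ε ^ 2 / r ^ 2 ≤ max 0 (1 - ‖F q t - y‖ ^ 2 / r ^ 2) := by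
        refine le_max_of_le_right ?_
        have := div_le_div_of_nonneg_right hsq hr2.le
        linarith
      have h3 : (1 - ε ^ 2 / r ^ 2) ^ 2 ≤ ct F y r t q := by
        unfold ct
        exact pow_le_pow_left₀ h0 h2 2
      have h4 : 1 / (2 * ε ^ 2) ≤ 2 * ε ^ 2 / (‖F q t - y‖ ^ 2 + ε ^ 2) ^ 2 := by
        rw [div_le_div_iff₀ (by positivity) (by positivity), one_mul]
        have h5 : ‖F q t - y‖ ^ 2 + ε ^ 2 ≤ 2 * ε ^ 2 := by linarith
        have h6 := pow_le_pow_left₀ (by positivity) h5 2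
        calc _ ≤ _ := h6
          _ = _ := by ring
      exact mul_le_mul h3 h4 (by positivity) ((hctp q).1)
    have h2 : ∫ q in A, ct F y r t q * (2 * ε ^ 2 / (‖F q t - y‖ ^ 2 + ε ^ 2) ^ 2) ∂μ ≤
        ∫ q, ct F y r t q * (2 * ε ^ 2 / (‖F q t - y‖ ^ 2 + ε ^ 2) ^ 2) ∂μ := by
      refine setIntegral_le_integral (hint _ c1).1 (Eventually.of_forall fun q => ?_)
      have := (hctp q).1
      positivity
    refine le_trans ?_ (h1.trans h2)
    rw [setIntegral_const, smul_eq_mul]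
    have h3 : (1 - ε ^ 2 / r ^ 2) ^ 2 / 2 =
        ε ^ 2 * ((1 - ε ^ 2 / r ^ 2) ^ 2 * (1 / (2 * ε ^ 2))) := by
      field_simp
    rw [h3]
    exact mul_le_mul_of_nonneg_right hAr (by positivity)
  have hlim : Tendsto (fun ε : ℝ => (1 - ε ^ 2 / r ^ 2) ^ 2 / 2) (𝓝[>] 0) (𝓝 (1 / 2)) := by
    have h1 : Tendsto (fun ε : ℝ => (1 - ε ^ 2 / r ^ 2) ^ 2 / 2) (𝓝 0)
        (𝓝 ((1 - (0 : ℝ) ^ 2 / r ^ 2) ^ 2 / 2)) := by
      have : Continuous (fun ε : ℝ => (1 - ε ^ 2 / r ^ 2) ^ 2 / 2) := by fun_prop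
      exact this.tendsto 0
    have h2 : (1 - (0 : ℝ) ^ 2 / r ^ 2) ^ 2 / 2 = 1 / 2 := by norm_num
    rw [h2] at h1
    exact h1.mono_left nhdsWithin_le_nhds
  exact le_of_tendsto hlim hev

end Pool.Agent.Helper60.CL
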